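import Pool.Agent.Q19.JL.Fin2
import Pool.Agent.Q19.SU.Pr
import Pool.Agent.Y673.FM.Fam

/-!
# MP_a60a76_nt: few invariants of all heights are congruent to a given curve; pairs

Let `K` be a number field (the problem: `K = ℚ`). The invariants `j ≠ 0, 1728` in `K`, of ALL
heights, are ordered by the product `radical j` of the norms of the primes (not dividing six) at which
`j` reduces to `0`, `1728` or `∞`; there are `X ^ (2 / 3 + o(1))` with `radical j ≤ X`. Two elements
`j₀`, `j` of `K` are related if there are elliptic curves `E₀`, `E` over `K` with these invariants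
(any twists) and a prime `p ≥ 13` with `K(E₀[p]) = K(E[p])`. This holds if `E₀` and `E` are `p`-congruent.

* There is `ν > 0` such that for all `ε > 0`, all large `X` and EVERY `j₀ ∈ K`, of whatever height, the
  proportion of the invariants `j` with `radical j ≤ X` which are related to `j₀` is at most
  `H(j₀) ^ ε X ^ (-ν)`.
* The proportion of the related pairs of invariants `j`, `j'` with `radical j, radical j' ≤ X`, of all
  heights, is at most `X ^ (-ν)`. So for almost all pairs of invariants of all heights the conjecture of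
  Frey and Mazur holds for all twists of both curves and all primes `p ≥ 13`.

Proof. The number of the `j` of height at most `B` related to `j₀` is at most
`C B ^ (1 + 1 / 13 + ε) H(j₀) ^ ε` (starting file MP_4a0cc8_nt/AllFieldsCongruences, from the local
theorem `FM.loc` of helper673), and almost all invariants with `radical j ≤ X` have height at most
`X ^ (2 / 5)` (engine `Pool.Agent.Q19.JL`).
-/

set_option autoImplicit false

open NumberField IsDedekindDomain
open scoped Classical

namespace Pool.Agent.Results.MP_a60a76_nt.AllHeightsEveryCurve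

/-- The curve `y² = x³ + Ax + B` over `K`. -/
def curve {K : Type} [Field K] (A B : K) : WeierstrassCurve K := ⟨0, 0, 0, A, B⟩

/-- The group of its points over the algebraic closure of `K`. -/
abbrev Points {K : Type} [Field K] (A B : K) : Type :=
  ((curve A B).baseChange (AlgebraicClosure K)).toAffine.Point

/-- The action of an automorphism `σ` of the algebraic closure over `K` on the points. -/
noncomputable def galois {K : Type} [Field K] (A B : K)
    (σ : AlgebraicClosure K ≃ₐ[K] AlgebraicClosure K) : Points A B →+ Points A B :=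
  WeierstrassCurve.Affine.Point.map (σ : AlgebraicClosure K →ₐ[K] AlgebraicClosure K)

/-- The fields generated by the points killed by `p` of the two curves are the same: they are fixed
by the same automorphisms. -/
def SameDivisionField {K : Type} [Field K] (p : ℕ) (A B A' B' : K) : Prop :=
  ∀ σ : AlgebraicClosure K ≃ₐ[K] AlgebraicClosure K,
    (∀ P : Points A B, p • P = 0 → galois A B σ P = P) ↔
      (∀ P : Points A' B', p • P = 0 → galois A' B' σ P = P)

/-- `p`-congruence: a bijective additive map of the points killed by `p` commutes with the Galois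
group. -/
def Congruent {K : Type} [Field K] (p : ℕ) (A B A' B' : K) : Prop :=
  ∃ f : Points A B → Points A' B', (∀ P Q, p • P = 0 → p • Q = 0 → f (P + Q) = f P + f Q) ∧
    Set.BijOn f {P | p • P = 0} {Q | p • Q = 0} ∧
    ∀ (σ : AlgebraicClosure K ≃ₐ[K] AlgebraicClosure K) (P : Points A B), p • P = 0 →
      f (galois A B σ P) = galois A' B' σ (f P)

/-- The invariant of `y² = x³ + Ax + B`. -/
noncomputable def jInvariant {K : Type} [Field K] (A B : K) : K :=
  6912 * A ^ 3 / (4 * A ^ 3 + 27 * B ^ 2)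

/-- `j₀` and `j` are the invariants of two elliptic curves over `K` which have the same `p`-division
field for some prime `p ≥ 13`. -/
def Related {K : Type} [Field K] (j₀ j : K) : Prop :=
  ∃ A B A₀ B₀ : K, 4 * A ^ 3 + 27 * B ^ 2 ≠ 0 ∧ 4 * A₀ ^ 3 + 27 * B₀ ^ 2 ≠ 0 ∧
    jInvariant A B = j ∧ jInvariant A₀ B₀ = j₀ ∧
      ∃ p : ℕ, p.Prime ∧ 13 ≤ p ∧ SameDivisionField p A B A₀ B₀

/-- the product of the norms of the primes not dividing six at which `j` reduces to `0`, `1728` or
`∞` -/
noncomputable def radical {K : Type} [Field K] [NumberField K] (j : K) : ℝ :=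
  ∏ᶠ v ∈ {v : HeightOneSpectrum (𝓞 K) | v.valuation K 6 = 1 ∧
    (v.valuation K j ≠ 1 ∨ v.valuation K (j - 1728) ≠ 1)}, (Ideal.absNorm v.asIdeal : ℝ)

/-- the invariants `j ≠ 0, 1728`, of whatever height, with `radical j ≤ X` -/
def Invariants (K : Type) [Field K] [NumberField K] (X : ℝ) : Set K :=
  {j | j ≠ 0 ∧ j ≠ 1728 ∧ radical j ≤ X}

/-- the invariants with `radical j ≤ X` which are related to `j₀` -/
def Partners {K : Type} [Field K] [NumberField K] (j₀ : K) (X : ℝ) : Set K :=
  {j ∈ Invariants K X | Related j₀ j}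

/-- the related pairs of invariants with `radical j, radical j' ≤ X` -/
def RelatedPairs (K : Type) [Field K] [NumberField K] (X : ℝ) : Set (K × K) :=
  {t | t.1 ∈ Invariants K X ∧ t.2 ∈ Invariants K X ∧ Related t.1 t.2}

theorem inv_eq (K : Type) [Field K] [NumberField K] (X : ℝ) :
    Invariants K X = Pool.Agent.Q19.JL.Iv K X := by
  ext j
  constructor
  · rintro ⟨h0, h1, h2⟩
    refine ⟨h0, h1, ?_⟩
    rw [← Pool.Agent.Q19.JL.rad_eq h0 h1]
    exact h2
  · rintro ⟨h0, h1, h2⟩
    refine ⟨h0, h1, ?_⟩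
    rw [← Pool.Agent.Q19.JL.rad_eq h0 h1] at h2
    exact h2

/-- **Theorem.** (1) There are `X ^ (2 / 3 + o(1))` invariants, of all heights, with
`radical j ≤ X`. (2) For every `j₀`, of whatever height, the proportion of those related to `j₀` is at
most `H(j₀) ^ ε X ^ (-ν)`, `X ≥ X₀(ε)`. (3) The proportion of the related pairs is at most
`X ^ (-ν)`. (4) The invariants of `p`-congruent curves, `p ≥ 13` prime, are related. -/
theorem result (K : Type) [Field K] [NumberField K] :
    (∀ δ : ℝ, 0 < δ → ∃ X₀ : ℝ, ∀ X : ℝ, X₀ ≤ X → (Invariants K X).Finite ∧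
      X ^ (2 / 3 - δ) ≤ ((Invariants K X).ncard : ℝ) ∧
      ((Invariants K X).ncard : ℝ) ≤ X ^ (2 / 3 + δ)) ∧
    (∃ ν : ℝ, 0 < ν ∧ ∀ ε : ℝ, 0 < ε → ∃ X₀ : ℝ, ∀ X : ℝ, X₀ ≤ X → ∀ j₀ : K,
      ((Partners j₀ X).ncard : ℝ) ≤
        Height.mulHeight₁ j₀ ^ ε * X ^ (-ν) * (Invariants K X).ncard) ∧
    (∃ ν X₀ : ℝ, 0 < ν ∧ ∀ X : ℝ, X₀ ≤ X →
      ((RelatedPairs K X).ncard : ℝ) ≤ X ^ (-ν) * ((Invariants K X).ncard : ℝ) ^ 2) ∧
    (∀ (p : ℕ) (A B A' B' : K), p.Prime → 13 ≤ p → 4 * A ^ 3 + 27 * B ^ 2 ≠ 0 →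
      4 * A' ^ 3 + 27 * B' ^ 2 ≠ 0 → Congruent p A B A' B' →
        Related (jInvariant A' B') (jInvariant A B)) := by
  refine ⟨fun δ hδ => ?_, ?_, ?_, ?_⟩
  · obtain ⟨X1, hX1, h1⟩ := Pool.Agent.Q19.JL.Iv_upper K δ hδ
    obtain ⟨X2, hX2, h2⟩ := Pool.Agent.Q19.JL.Iv_lower K δ hδ
    refine ⟨max X1 X2, fun X hX => ?_⟩
    rw [inv_eq]
    exact ⟨Pool.Agent.Q19.JL.Iv_fin K (hX1.trans ((le_max_left _ _).trans hX)),
      h2 X ((le_max_right _ _).trans hX), h1 X ((le_max_left _ _).trans hX)⟩
  · obtain ⟨ν, hν, h⟩ := Pool.Agent.Q19.SU.rel_prop K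
    refine ⟨ν, hν, fun ε hε => ?_⟩
    obtain ⟨X₀, -, h1⟩ := h ε hε
    refine ⟨X₀, fun X hX j₀ => ?_⟩
    unfold Partners
    rw [inv_eq]
    exact h1 X hX j₀
  · obtain ⟨ν, X₀, hν, -, h⟩ := Pool.Agent.Q19.SU.pair_prop K
    refine ⟨ν, X₀, hν, fun X hX => ?_⟩
    unfold RelatedPairs
    rw [inv_eq]
    exact h X hX
  · rintro p A B A' B' hp h13 hD hD' ⟨f, -, f2, f3⟩
    exact ⟨A, B, A', B', hD, hD', rfl, rfl, p, hp, h13, Pool.Agent.Y673.FM.sameF_of f f2 f3⟩

end Pool.Agent.Results.MP_a60a76_nt.AllHeightsEveryCurve
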