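import Pool.Agent.Results.MP_a60a76_nt.AllSmallerCurves
import Pool.Agent.Q319.WN.PairW

/-!
# ALL elliptic curves near the multiples and the dilates of almost every real one have no congruence with smaller curves

The pair `(A, B)` of integers is good of level `m` if `y² = x³ + Ax + B` is an elliptic curve `E` without congruence, modulo
any `n ≥ 2`, with a curve of height at most `H(E) ^ (1 - 1 / (m + 1))`, twists of `E` included. Let `(α, β)` be a pair of
real numbers.

1. For all `(α, β)` with `|α| ≤ Y²`, `|β| ≤ Y³` outside a set of area at most `ε Y⁵` and 100% of the `n ≤ R` ALL the pairs of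
   integers within `w` of `(n² α, n³ β)` are good of level `m` (`Y` large in terms of `ε`, `w` and `m`; every `R`).
2. For every sequence `v_k → ∞` and almost every `(α, β)` ALL the pairs within `w` of `(v_k² α, v_k³ β)` are good of level `m`
   for 100% of the `k < K_j`, for a sequence `K_j → ∞` which does not depend on `α`, `β`, `w` and `m`.
3. If `v_k` increases fast enough then for almost every `(α, β)` and all large `k` ALL the pairs within `k` of
   `(v_k² α, v_k³ β)` are good of all levels `m ≤ k`.

From Mathlib: `volume`: the Lebesgue measure. That 100% of the pairs are good is from the starting file `AllSmallerCurves`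
(with the definitions of `disc`, `height`, `Congruent` and `NoSmaller`). `MultiplesVecW`, `DilatesVecW`, `FastDilatesVecW`
are defined in `Pool.Agent.Q319.WN.VecW`.
-/

set_option autoImplicit false

namespace Pool.Agent.Results.MP_a60a76_nt.CurvesNearRealCurves

open Filter Topology Pool.Agent.Q319.WN Pool.Agent.Results.MP_a60a76_nt.AllSmallerCurves

/-- `y² = x³ + Ax + B` is not an elliptic curve or has a congruence, modulo some `n ≥ 2`, with a curve of height at most
`H(E) ^ (1 - 1 / (m + 1))`. -/
def Bad (m : ℕ) (A B : ℤ) : Prop := ¬ (disc A B ≠ 0 ∧ NoSmaller (1 / ((m : ℝ) + 1)) A B)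

lemma bad_null (m : ℕ) : NullBoxW ![2, 3] (fun x : Fin 2 → ℤ => Bad m (x 0) (x 1)) :=
  null_pair (Q := fun p : ℤ × ℤ => disc p.1 p.2 ≠ 0 ∧ NoSmaller (1 / ((m : ℝ) + 1)) p.1 p.2) 2 3
    (AllSmallerCurves.result (1 / ((m : ℝ) + 1)) (by positivity))

/-- The pairs of integers `(A, B)` which are not good of level `m` (see `Bad`) are
1. rare at the multiples `(n² α, n³ β)` of almost all pairs `(α, β)` of real numbers,
2. rare at the dilates `(v_k² α, v_k³ β)`, for every sequence `v_k → ∞` and almost all `(α, β)`,
3. absent within the distance `k` of `(v_k² α, v_k³ β)` and for all `m ≤ k`, for all large `k`, for every fast sequence `v_k`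
   and almost all `(α, β)` (see `MultiplesVecW`, `DilatesVecW` and `FastDilatesVecW` for the precise statements). -/
theorem result :
    (∀ m : ℕ, MultiplesVecW ![2, 3] (fun x : Fin 2 → ℤ => Bad m (x 0) (x 1))) ∧
      DilatesVecW ![2, 3] (fun (m : ℕ) (x : Fin 2 → ℤ) => Bad m (x 0) (x 1)) ∧
      FastDilatesVecW ![2, 3] (fun (m : ℕ) (x : Fin 2 → ℤ) => Bad m (x 0) (x 1)) :=
  null_allW (one_le_pair (by norm_num) (by norm_num)) bad_null

end Pool.Agent.Results.MP_a60a76_nt.CurvesNearRealCurves
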