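import Pool.Agent.Y673.SX.Bx
import Pool.Agent.Y673.SY.Ct
import Pool.Agent.Q327.MF.Gen

/-!
# MP_a60a76_nt: congruent pairs of members of two families of elliptic curves with any numbers of
parameters

Let `r`, `s` and `d` be given.  A family of elliptic curves enters by its invariant `F / G`, where `F`,
`G` are polynomials over `ℤ` of total degree at most `d`.  For every `ε > 0` there are `C` and `c > 0`
such that for every `N ≥ 5` and `H ≥ 1` the following holds for all families `j(z) = F(z)/G(z)` with `r`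
parameters, `F / G` not constant, and `j'(w) = F'(w)/G'(w)` with `s` parameters, the coefficients of each
of the four polynomials having absolute values of sum at most `H`, and for ALL finite sets `S_1, ..., S_r`,
`S'_1, ..., S'_s` of rational numbers of height at most `H`, the `S_i` having at least `m` elements.

(1) Among the pairs `(z, w)` with `z_i ∈ S_i`, `w_i ∈ S'_i` and `j'(w) ≠ 0, 1728` at most
`C H ^ (5 (max(r, s) d + 1) / N + ε) ∏ |S_i| ∏ |S'_i| / m` have the property that some elliptic curve over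
`ℚ` with invariant `j(z)` is `p`-congruent to some elliptic curve over `ℚ` with invariant `j'(w)`, for some
prime `p` with `N ≤ p ≤ exp (c √(log H))`.  (Here the second family may be constant: `s = 0` gives the
members of a family which are congruent to a given curve of height at most `H`.)

(2) If `j'` is not constant and the sets `S'_i` have at least `m` elements as well, this holds without the
condition `j'(w) ≠ 0, 1728`.

For example, if all the sets consist of the integers up to `H`, then for all but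
`O(H ^ (r + s - 1 + 2ε))` of the `(2H + 1) ^ (r + s)` pairs of members there is no congruence between `E_z`
and `E'_w` (or their twists) modulo any prime `N ≤ p ≤ exp (c √(log H))`, if `N` is large in terms of
`r, s, d, ε`.  For two families with one parameter these are `O(H ^ (1 + 2ε))` of about `4 H²` pairs, which
is the best possible up to `ε`: if the families are equal or isogenous, the diagonal has `2 H + 1`
elements.

The starting files treat a fixed curve, and all curves.  The proof combines the theorem of the file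
`ExplicitPartners`, which is uniform in the given curve, with a bound for the heights of the values and
with the Schwartz-Zippel lemma for the hypersurfaces `F = j G`.
-/

set_option autoImplicit false

open WeierstrassCurve

namespace Pool.Agent.Results.MP_a60a76_nt.PairsInFamilies

/-- The curve `y² = x³ + Ax + B` over `ℚ`. -/
def curve (A B : ℚ) : WeierstrassCurve ℚ := ⟨0, 0, 0, A, B⟩

/-- Its `j`-invariant. -/
def invariant (A B : ℚ) : ℚ := 1728 * (4 * A ^ 3) / (4 * A ^ 3 + 27 * B ^ 2)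

open scoped Classical in
/-- The group of its points over the algebraic closure of `ℚ`. -/
abbrev Points (A B : ℚ) : Type := ((curve A B).baseChange (AlgebraicClosure ℚ)).toAffine.Point

open scoped Classical in
/-- The action of an automorphism `σ` of the algebraic closure on the points. -/
noncomputable def galois (A B : ℚ) (σ : AlgebraicClosure ℚ ≃ₐ[ℚ] AlgebraicClosure ℚ) :
    Points A B →+ Points A B :=
  WeierstrassCurve.Affine.Point.map (σ : AlgebraicClosure ℚ →ₐ[ℚ] AlgebraicClosure ℚ)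

open scoped Classical in
/-- The curves `y² = x³ + Ax + B` and `y² = x³ + A'x + B'` are `p`-congruent: some map between the
groups of points restricts to a bijective additive map between the groups of points killed by `p` which
commutes with the Galois group. -/
def Congruent (p : ℕ) (A B A' B' : ℚ) : Prop :=
  ∃ f : Points A B → Points A' B', (∀ P Q, p • P = 0 → p • Q = 0 → f (P + Q) = f P + f Q) ∧
    Set.BijOn f {P | p • P = 0} {Q | p • Q = 0} ∧
    ∀ (σ : AlgebraicClosure ℚ ≃ₐ[ℚ] AlgebraicClosure ℚ) (P : Points A B), p • P = 0 →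
      f (galois A B σ P) = galois A' B' σ (f P)

/-- Some elliptic curve over `ℚ` with invariant `j` is `p`-congruent to some elliptic curve over `ℚ` with
invariant `j'`, for some prime `p` with `N ≤ p ≤ P`. -/
def CongruentInvariants (N : ℕ) (P : ℝ) (j j' : ℚ) : Prop :=
  ∃ A B A' B' : ℚ, 4 * A ^ 3 + 27 * B ^ 2 ≠ 0 ∧ 4 * A' ^ 3 + 27 * B' ^ 2 ≠ 0 ∧
    invariant A B = j ∧ invariant A' B' = j' ∧
    ∃ p : ℕ, p.Prime ∧ N ≤ p ∧ (p : ℝ) ≤ P ∧ Congruent p A B A' B'

/-- `F` and `G` have total degree at most `d`, and the absolute values of the coefficients of each of them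
have sum at most `H`. -/
structure Bounded {r : ℕ} (d : ℕ) (H : ℝ) (F G : MvPolynomial (Fin r) ℤ) : Prop where
  degree_left : F.totalDegree ≤ d
  degree_right : G.totalDegree ≤ d
  length_left : (∑ m ∈ F.support, |((F.coeff m : ℤ) : ℝ)|) ≤ H
  length_right : (∑ m ∈ G.support, |((G.coeff m : ℤ) : ℝ)|) ≤ H

/-- `F / G` is not constant. -/
def Nonconstant {r : ℕ} (F G : MvPolynomial (Fin r) ℤ) : Prop :=
  ∀ a b : ℤ, MvPolynomial.C a * F = MvPolynomial.C b * G → a = 0 ∧ b = 0

/-- The point `z` is in the product of the sets `S i`, and `G` does not vanish at `z`. -/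
def Admissible {r : ℕ} (G : MvPolynomial (Fin r) ℤ) (S : Fin r → Finset ℚ) (z : Fin r → ℚ) : Prop :=
  (∀ i, z i ∈ S i) ∧ MvPolynomial.aeval z G ≠ (0 : ℚ)

/-- The invariant of the member at `z`. -/
noncomputable def member {r : ℕ} (F G : MvPolynomial (Fin r) ℤ) (z : Fin r → ℚ) : ℚ :=
  MvPolynomial.aeval z F / MvPolynomial.aeval z G

/-- All elements have numerator and denominator at most `H`. -/
def HeightAtMost {r : ℕ} (H : ℝ) (S : Fin r → Finset ℚ) : Prop :=
  ∀ i, ∀ x ∈ S i, |(x.num : ℝ)| ≤ H ∧ (x.den : ℝ) ≤ H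

theorem ar1 {C Y d P Q t : ℝ} (hd : 0 ≤ d) (hY : 0 ≤ Y) (hP : 0 ≤ P) (hQ : 0 ≤ Q)
    (h : t ≤ C * Y * (d * P) * Q) : t ≤ (C * d + 2 * d) * Y * (P * Q) := by
  have h1 : 0 ≤ 2 * d * Y * (P * Q) := by positivity
  calc t ≤ C * Y * (d * P) * Q := h
    _ = C * d * Y * (P * Q) := by ring
    _ ≤ C * d * Y * (P * Q) + 2 * d * Y * (P * Q) := by linarith
    _ = _ := by ring

theorem ar2 {C Y d P Q a b : ℝ} (hd : 0 ≤ d) (hY : 1 ≤ Y) (hP : 0 ≤ P) (hQ : 0 ≤ Q)
    (h : a ≤ C * Y * (d * P) * Q) (h' : b ≤ 2 * (d * Q)) :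
    a + P * b ≤ (C * d + 2 * d) * Y * (P * Q) := by
  have h1 : P * b ≤ P * (2 * (d * Q)) := mul_le_mul_of_nonneg_left h' hP
  have h2 : 0 ≤ 2 * d * (P * Q) := by positivity
  have h3 : 1 * (2 * d * (P * Q)) ≤ Y * (2 * d * (P * Q)) := mul_le_mul_of_nonneg_right hY h2
  calc a + P * b ≤ C * Y * (d * P) * Q + P * (2 * (d * Q)) := add_le_add h h1
    _ = C * d * Y * (P * Q) + 1 * (2 * d * (P * Q)) := by ring
    _ ≤ C * d * Y * (P * Q) + Y * (2 * d * (P * Q)) := by linarith
    _ = _ := by ring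

/-- the partners of one invariant -/
theorem partners {ε : ℝ} (hε : 0 < ε) : ∃ C c : ℝ, 0 < c ∧ ∀ N : ℕ, 5 ≤ N → ∀ X : ℝ, 1 ≤ X →
    ∀ j₀ : ℚ, j₀ ≠ 0 → j₀ ≠ 1728 → |(j₀.num : ℝ)| ≤ X → (j₀.den : ℝ) ≤ X →
      ∃ J : Finset ℚ, (J.card : ℝ) ≤ C * X ^ (5 / (N : ℝ) + ε) ∧
        ∀ j : ℚ, |(j.num : ℝ)| ≤ X → (j.den : ℝ) ≤ X →
          CongruentInvariants N (Real.exp (c * Real.sqrt (Real.log X))) j j₀ → j ∈ J := by
  obtain ⟨C, c, hc, h⟩ := Pool.Agent.Y673.SY.few_partnersF (D := 1) le_rfl hε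
  refine ⟨C, c, hc, fun N hN5 X hX j₀ h0 h1 hu hw => ?_⟩
  have hden : ((j₀.den : ℤ)) ≠ 0 := by exact_mod_cast j₀.den_nz
  obtain ⟨hf, hn⟩ := h N hN5 (by omega) X hX j₀.num j₀.den hden (Rat.num_ne_zero.2 h0) (by
      intro h2
      apply h1
      have h3 : (j₀.num : ℚ) = 1728 * (j₀.den : ℚ) := by exact_mod_cast h2
      have h4 : (j₀.den : ℚ) ≠ 0 := by exact_mod_cast j₀.den_nz
      rw [← Rat.num_div_den j₀, h3, mul_div_cancel_right₀ _ h4]) hu (by
      rw [Int.cast_natCast, abs_of_nonneg (Nat.cast_nonneg _)]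
      exact hw)
  set E : Set ℚ := {j : ℚ | |(j.num : ℝ)| ≤ X ∧ (j.den : ℝ) ≤ X ∧
    CongruentInvariants N (Real.exp (c * Real.sqrt (Real.log X))) j j₀} with hE
  have hinv : ∀ A B : ℚ, Pool.Agent.Y673.Loc.jv A B = invariant A B := by
    intro A B
    unfold Pool.Agent.Y673.Loc.jv invariant
    ring
  have hmaps : ∀ j ∈ E, ((j : ℚ) : ℂ) ∈ Pool.Agent.Y673.FX.ExP 1 N c X j₀.num j₀.den := by
    rintro j ⟨h2, h3, A, B, A', B', h4, h5, h6, h7, p, hp, hNp, hpX, hcong⟩
    refine ⟨Pool.Agent.Y673.SX.ht_Q h2 h3, p, hp, hNp, hpX, ℚ, inferInstance, inferInstance,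
      Rat.castHom ℂ, A, B, A', B', ?_, h4, h5, ?_, ?_, hcong⟩
    · have h3 : (DivisionRing.toRatAlgebra : Algebra ℚ ℚ) = Algebra.id ℚ := Subsingleton.elim _ _
      rw [h3]
      exact Pool.Agent.Y673.SX.finrank_Q
    · rw [hinv, h6]
      rfl
    · rw [hinv, h7, Int.cast_natCast]
      exact (Rat.num_div_den j₀).symm
  have hinj : Set.InjOn (fun j : ℚ => (j : ℂ)) E := Rat.cast_injective.injOn
  have hEf : E.Finite := Set.Finite.of_injOn hmaps hinj hf
  refine ⟨hEf.toFinset, ?_, fun j h2 h3 h4 => hEf.mem_toFinset.2 ⟨h2, h3, h4⟩⟩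
  rw [← Set.ncard_eq_toFinset_card E hEf]
  have h1 := Set.ncard_le_ncard_of_injOn (fun j : ℚ => (j : ℂ)) hmaps hinj hf
  have h2 : 5 * ((1 : ℕ) : ℝ) ^ 3 / (N : ℝ) = 5 / (N : ℝ) := by
    push_cast
    ring
  rw [h2] at hn
  exact (Nat.cast_le.2 h1).trans hn

/-- **Few congruent pairs of members of two families.** -/
theorem result (r s d : ℕ) (ε : ℝ) (hε : 0 < ε) : ∃ C c : ℝ, 0 < c ∧
    ∀ N : ℕ, 5 ≤ N → ∀ H : ℝ, 1 ≤ H →
    ∀ F G : MvPolynomial (Fin r) ℤ, Bounded d H F G → Nonconstant F G →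
    ∀ F' G' : MvPolynomial (Fin s) ℤ, Bounded d H F' G' →
    ∀ (S : Fin r → Finset ℚ) (S' : Fin s → Finset ℚ), HeightAtMost H S → HeightAtMost H S' →
    ∀ m : ℕ, 1 ≤ m → (∀ i, m ≤ (S i).card) →
      -- all pairs such that the second invariant is not `0` or `1728`
      (Set.ncard {x : (Fin r → ℚ) × (Fin s → ℚ) | Admissible G S x.1 ∧ Admissible G' S' x.2 ∧
          member F' G' x.2 ≠ 0 ∧ member F' G' x.2 ≠ 1728 ∧
          CongruentInvariants N (Real.exp (c * Real.sqrt (Real.log H)))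
            (member F G x.1) (member F' G' x.2)} : ℝ) ≤
        C * H ^ (5 * ((max r s : ℕ) * (d : ℝ) + 1) / N + ε) *
          ((∏ i, ((S i).card : ℝ)) * (∏ i, ((S' i).card : ℝ)) / m) ∧
      -- all pairs, if the second invariant is not constant and the sets `S' i` are not small
      (Nonconstant F' G' → (∀ i, m ≤ (S' i).card) →
        (Set.ncard {x : (Fin r → ℚ) × (Fin s → ℚ) | Admissible G S x.1 ∧ Admissible G' S' x.2 ∧
            CongruentInvariants N (Real.exp (c * Real.sqrt (Real.log H)))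
              (member F G x.1) (member F' G' x.2)} : ℝ) ≤
          C * H ^ (5 * ((max r s : ℕ) * (d : ℝ) + 1) / N + ε) *
            ((∏ i, ((S i).card : ℝ)) * (∏ i, ((S' i).card : ℝ)) / m)) := by
  classical
  set q : ℕ := max r s with hq
  set k : ℝ := (q : ℝ) * d + 1 with hk
  have hkpos : 0 < k := by positivity
  obtain ⟨C, c, hc, h⟩ := partners (show 0 < ε / k by positivity)
  refine ⟨C * d + 2 * d, c, hc, fun N hN5 H hH F G hb hnc F' G' hb' S S' hS hS' m hm1 hm => ?_⟩
  set X : ℝ := H ^ (q * d + 1) with hX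
  have hX1 : 1 ≤ X := one_le_pow₀ hH
  have hHX : H ≤ X := by
    calc H = H ^ 1 := (pow_one H).symm
      _ ≤ H ^ (q * d + 1) := pow_le_pow_right₀ hH (by omega)
  have hval : ∀ z, Admissible G S z → |((member F G z).num : ℝ)| ≤ X ∧ ((member F G z).den : ℝ) ≤ X := by
    intro z hz
    obtain ⟨h1, h2⟩ := Pool.Agent.Q327.MF.value_ht F G hb.degree_left hb.degree_right hH
      hb.length_left hb.length_right z (fun i => hS i _ (hz.1 i)) hz.2
    have h3 : H ^ (r * d + 1) ≤ X := pow_le_pow_right₀ hH (by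
      have : r * d ≤ q * d := Nat.mul_le_mul_right _ (le_max_left _ _)
      omega)
    exact ⟨h1.trans h3, h2.trans h3⟩
  have hval' : ∀ w, Admissible G' S' w →
      |((member F' G' w).num : ℝ)| ≤ X ∧ ((member F' G' w).den : ℝ) ≤ X := by
    intro z hz
    obtain ⟨h1, h2⟩ := Pool.Agent.Q327.MF.value_ht F' G' hb'.degree_left hb'.degree_right hH
      hb'.length_left hb'.length_right z (fun i => hS' i _ (hz.1 i)) hz.2
    have h3 : H ^ (s * d + 1) ≤ X := pow_le_pow_right₀ hH (by
      have : s * d ≤ q * d := Nat.mul_le_mul_right _ (le_max_right _ _)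
      omega)
    exact ⟨h1.trans h3, h2.trans h3⟩
  have hmpos : (0 : ℝ) < m := by exact_mod_cast hm1
  have hC0 : 0 ≤ C := by
    obtain ⟨J, hJ, -⟩ := h 5 le_rfl 1 le_rfl (1 : ℚ) one_ne_zero (by norm_num) (by simp) (by simp)
    rw [Real.one_rpow, mul_one] at hJ
    exact (Nat.cast_nonneg _).trans hJ
  set Y : ℝ := H ^ (5 * k / (N : ℝ) + ε) with hY
  have hY1 : 1 ≤ Y := Real.one_le_rpow hH (by positivity)
  have hexp : X ^ (5 / (N : ℝ) + ε / k) = Y := by
    rw [hX, ← Real.rpow_natCast, ← Real.rpow_mul (by linarith)]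
    congr 1
    push_cast
    rw [← hk]
    field_simp
  set PS : ℝ := ∏ i, ((S i).card : ℝ) with hPS
  set PS' : ℝ := ∏ i, ((S' i).card : ℝ) with hPS'
  have hPS0 : 0 ≤ PS := Finset.prod_nonneg fun _ _ => Nat.cast_nonneg _
  have hPS'0 : 0 ≤ PS' := Finset.prod_nonneg fun _ _ => Nat.cast_nonneg _
  -- the parameters `z` congruent to a given `w`
  have hone : ∀ w, Admissible G' S' w → member F' G' w ≠ 0 → member F' G' w ≠ 1728 →
      ∀ T : Finset (Fin r → ℚ), (∀ z ∈ T, Admissible G S z ∧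
        CongruentInvariants N (Real.exp (c * Real.sqrt (Real.log H))) (member F G z)
          (member F' G' w)) → (m : ℝ) * T.card ≤ C * Y * (d * PS) := by
    intro w hw hw0 hw1 T hT
    obtain ⟨J, hJ, hJ'⟩ := h N hN5 X hX1 (member F' G' w) hw0 hw1 (hval' w hw).1 (hval' w hw).2
    have h1 := Pool.Agent.Q327.MF.count_rat F G hb.degree_left hb.degree_right hnc S hm J T
      (fun z hz => by
        obtain ⟨h2, A, B, A', B', h3, h4, h5, h6, p, h7, h8, h9, h10⟩ := hT z hz
        refine ⟨h2.1, h2.2, hJ' _ (hval z h2).1 (hval z h2).2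
          ⟨A, B, A', B', h3, h4, h5, h6, p, h7, h8, h9.trans ?_, h10⟩⟩
        apply Real.exp_le_exp.2
        apply mul_le_mul_of_nonneg_left _ hc.le
        apply Real.sqrt_le_sqrt
        exact Real.log_le_log (by linarith) hHX)
    have h2 : (m : ℝ) * T.card ≤ (J.card : ℝ) * (d * PS) := by
      rw [hPS]
      exact_mod_cast h1
    rw [hexp] at hJ
    exact h2.trans (mul_le_mul_of_nonneg_right hJ (mul_nonneg (Nat.cast_nonneg _) hPS0))
  set B1 : Finset (Fin r → ℚ) := Fintype.piFinset S with hB1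
  set B2 : Finset (Fin s → ℚ) := Fintype.piFinset S' with hB2
  have hB1c : (B1.card : ℝ) = PS := by rw [hB1, Fintype.card_piFinset]; push_cast; rfl
  have hB2c : (B2.card : ℝ) = PS' := by rw [hB2, Fintype.card_piFinset]; push_cast; rfl
  have hmem1 : ∀ z, Admissible G S z → z ∈ B1 := fun z hz => Fintype.mem_piFinset.2 hz.1
  have hmem2 : ∀ z, Admissible G' S' z → z ∈ B2 := fun z hz => Fintype.mem_piFinset.2 hz.1
  set P : (Fin r → ℚ) → (Fin s → ℚ) → Prop := fun z w => Admissible G S z ∧ Admissible G' S' w ∧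
    CongruentInvariants N (Real.exp (c * Real.sqrt (Real.log H))) (member F G z) (member F' G' w)
    with hP
  -- the pairs with `j' ≠ 0, 1728`
  set U : Finset ((Fin r → ℚ) × (Fin s → ℚ)) := (B1 ×ˢ B2).filter fun x => P x.1 x.2 ∧
    member F' G' x.2 ≠ 0 ∧ member F' G' x.2 ≠ 1728 with hU
  have hUcard : (m : ℝ) * U.card ≤ C * Y * (d * PS) * PS' := by
    have h1 : U.card ≤ ∑ w ∈ B2, (B1.filter fun z => P z w ∧ member F' G' w ≠ 0 ∧
        member F' G' w ≠ 1728).card := by
      have h2 : U ⊆ B2.biUnion fun w => (B1.filter fun z => P z w ∧ member F' G' w ≠ 0 ∧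
          member F' G' w ≠ 1728).image fun z => (z, w) := by
        rintro ⟨z, w⟩ hx
        obtain ⟨h3, h4⟩ := Finset.mem_filter.1 hx
        obtain ⟨h5, h6⟩ := Finset.mem_product.1 h3
        exact Finset.mem_biUnion.2 ⟨w, h6, Finset.mem_image.2 ⟨z, Finset.mem_filter.2 ⟨h5, h4⟩, rfl⟩⟩
      exact (Finset.card_le_card h2).trans (Finset.card_biUnion_le.trans
        (Finset.sum_le_sum fun w _ => Finset.card_image_le))
    calc (m : ℝ) * U.card ≤ m * ∑ w ∈ B2, ((B1.filter fun z => P z w ∧ member F' G' w ≠ 0 ∧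
          member F' G' w ≠ 1728).card : ℝ) := by
          apply mul_le_mul_of_nonneg_left _ hmpos.le
          exact_mod_cast h1
      _ = ∑ w ∈ B2, (m : ℝ) * ((B1.filter fun z => P z w ∧ member F' G' w ≠ 0 ∧
          member F' G' w ≠ 1728).card : ℝ) := Finset.mul_sum _ _ _
      _ ≤ ∑ _w ∈ B2, C * Y * (d * PS) := by
          apply Finset.sum_le_sum
          intro w _
          rcases (B1.filter fun z => P z w ∧ member F' G' w ≠ 0 ∧
            member F' G' w ≠ 1728).eq_empty_or_nonempty with he | ⟨z₀, hz₀⟩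
          · rw [he, Finset.card_empty, Nat.cast_zero, mul_zero]
            exact mul_nonneg (mul_nonneg hC0 (zero_le_one.trans hY1))
              (mul_nonneg (Nat.cast_nonneg _) hPS0)
          · obtain ⟨-, ⟨-, h3, -⟩, h4, h5⟩ := Finset.mem_filter.1 hz₀
            refine hone w h3 h4 h5 _ fun z hz => ?_
            obtain ⟨-, ⟨h6, -, h7⟩, -, -⟩ := Finset.mem_filter.1 hz
            exact ⟨h6, h7⟩
      _ = C * Y * (d * PS) * PS' := by
          rw [Finset.sum_const, nsmul_eq_mul, hB2c]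
          ring
  have hfin : ∀ Z : Set ((Fin r → ℚ) × (Fin s → ℚ)), (∀ x ∈ Z, P x.1 x.2) → Z.Finite :=
    fun Z hZ => ((B1 ×ˢ B2).finite_toSet).subset fun x hx =>
      Finset.mem_coe.2 (Finset.mem_product.2 ⟨hmem1 _ (hZ x hx).1, hmem2 _ (hZ x hx).2.1⟩)
  refine ⟨?_, fun hnc' hm' => ?_⟩
  · have h1 : ({x : (Fin r → ℚ) × (Fin s → ℚ) | Admissible G S x.1 ∧ Admissible G' S' x.2 ∧
          member F' G' x.2 ≠ 0 ∧ member F' G' x.2 ≠ 1728 ∧
          CongruentInvariants N (Real.exp (c * Real.sqrt (Real.log H)))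
            (member F G x.1) (member F' G' x.2)} : Set _) ⊆ (U : Set _) := by
      rintro ⟨z, w⟩ ⟨h2, h3, h4, h5, h6⟩
      exact Finset.mem_coe.2 (Finset.mem_filter.2
        ⟨Finset.mem_product.2 ⟨hmem1 _ h2, hmem2 _ h3⟩, ⟨h2, h3, h6⟩, h4, h5⟩)
    have h2 := Set.ncard_le_ncard h1 U.finite_toSet
    rw [Set.ncard_coe_finset] at h2
    rw [← mul_div_assoc, le_div_iff₀ hmpos]
    refine (mul_le_mul_of_nonneg_right (Nat.cast_le.2 h2) hmpos.le).trans ?_
    rw [mul_comm]
    exact ar1 (Nat.cast_nonneg _) (zero_le_one.trans hY1) hPS0 hPS'0 hUcard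
  · have hT' := Pool.Agent.Q327.MF.count_rat F' G' hb'.degree_left hb'.degree_right hnc' S' hm'
      ({0, 1728} : Finset ℚ) (B2.filter fun w => Admissible G' S' w ∧
        (member F' G' w = 0 ∨ member F' G' w = 1728)) (fun w hw => by
        obtain ⟨-, h1, h2⟩ := Finset.mem_filter.1 hw
        refine ⟨h1.1, h1.2, ?_⟩
        rw [Finset.mem_insert, Finset.mem_singleton]
        exact h2)
    set V : Finset (Fin s → ℚ) := B2.filter fun w => Admissible G' S' w ∧
        (member F' G' w = 0 ∨ member F' G' w = 1728) with hV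
    have hVc : (m : ℝ) * V.card ≤ 2 * (d * PS') := by
      have h1 : (({0, 1728} : Finset ℚ)).card ≤ 2 := Finset.card_le_two
      have h2 : m * V.card ≤ 2 * (d * ∏ i, (S' i).card) :=
        hT'.trans (Nat.mul_le_mul_right _ h1)
      rw [hPS']
      exact_mod_cast h2
    have h1 : ({x : (Fin r → ℚ) × (Fin s → ℚ) | Admissible G S x.1 ∧ Admissible G' S' x.2 ∧
          CongruentInvariants N (Real.exp (c * Real.sqrt (Real.log H)))
            (member F G x.1) (member F' G' x.2)} : Set _) ⊆ ((U ∪ B1 ×ˢ V : Finset _) : Set _) := by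
      rintro ⟨z, w⟩ ⟨h2, h3, h6⟩
      rw [Finset.mem_coe, Finset.mem_union]
      by_cases h4 : member F' G' w = 0 ∨ member F' G' w = 1728
      · right
        exact Finset.mem_product.2 ⟨hmem1 _ h2, Finset.mem_filter.2 ⟨hmem2 _ h3, h3, h4⟩⟩
      · left
        push Not at h4
        exact Finset.mem_filter.2
          ⟨Finset.mem_product.2 ⟨hmem1 _ h2, hmem2 _ h3⟩, ⟨h2, h3, h6⟩, h4.1, h4.2⟩
    have h2 := Set.ncard_le_ncard h1 (Finset.finite_toSet _)
    rw [Set.ncard_coe_finset] at h2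
    have h3 : ((U ∪ B1 ×ˢ V).card : ℝ) ≤ U.card + PS * V.card := by
      rw [← hB1c]
      exact_mod_cast (Finset.card_union_le _ _).trans (by rw [Finset.card_product])
    rw [← mul_div_assoc, le_div_iff₀ hmpos]
    refine (mul_le_mul_of_nonneg_right ((Nat.cast_le.2 h2).trans h3) hmpos.le).trans ?_
    have h4 : (↑U.card + PS * ↑V.card) * (m : ℝ) = m * U.card + PS * (m * V.card) := by ring
    rw [h4]
    exact ar2 (Nat.cast_nonneg _) hY1 hPS0 hPS'0 hUcard hVc

end Pool.Agent.Results.MP_a60a76_nt.PairsInFamilies
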