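import Mathlib
import Pool.Agent.Q158.RR
import Pool.Agent.Results.MP_a60a76_nt.InvariantWindows

/-!
# No curve whose invariant has a random height is congruent to a given curve

Let `7 / 34 ≤ s < 1`. If the integer `N` is given by digits or by multiples of a random real number (in the sense of
`RandomReals s`), then for EVERY elliptic curve `E₀` over `ℚ` and all `k`, NO elliptic curve over `ℚ` whose invariant has a
height that differs from `N` by at most `k` is `p`-congruent to `E₀` for any prime `p ≥ 17`. For smaller `s > 0` the same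
holds for all primes `p ≥ P` with `7 / (2 P) ≤ s`.
-/

set_option autoImplicit false

open WeierstrassCurve

namespace Pool.Agent.Results.MP_a60a76_nt.RandomInvariants

open InvariantWindows (ht jInvariant Congruent Exc)

/-- No elliptic curve `y² = x³ + Ax + B` over `ℚ` whose invariant has a height that differs from `N` by at most `k`
is `p`-congruent to `y² = x³ + A₀x + B₀` for any prime `p ≥ P`. -/
def Good (P : ℕ) (A₀ B₀ : ℤ) (k N : ℕ) : Prop :=
  ∀ A B : ℚ, 4 * A ^ 3 + 27 * B ^ 2 ≠ 0 → |(ht (jInvariant A B) : ℝ) - N| ≤ k →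
    ∀ p : ℕ, p.Prime → P ≤ p → ¬ Congruent p A B (A₀ : ℚ) (B₀ : ℚ)

/-- the nonsingular equations `y² = x³ + A₀x + B₀` -/
def Curves : Type := {z : ℤ × ℤ // 4 * z.1 ^ 3 + 27 * z.2 ^ 2 ≠ 0}

instance : Countable Curves := by
  unfold Curves
  infer_instance

/-- **Theorem.** Let `P ≥ 17` and `7 / (2 P) ≤ s < 1`. In the sense of `RandomReals s` (windows of digits in all bases,
and integers near the multiples `α v_k`, for random real numbers `α`, with Hausdorff dimensions and measures of the
exceptional sets): for EVERY elliptic curve `E₀ : y² = x³ + A₀x + B₀`, `A₀`, `B₀` integers, and all `k` at once, no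
elliptic curve over `ℚ` whose invariant has a height that differs from `N` by at most `k` is `p`-congruent to `E₀` for
any prime `p ≥ P`. -/
theorem result (P : ℕ) (hP : 17 ≤ P) (s : ℝ) (hs : 7 / (2 * (P : ℝ)) ≤ s) (hs1 : s < 1) :
    Pool.Agent.Q21.DW.RandomReals s (fun (p : Curves × ℕ) (N : ℕ) => Good P p.1.1.1 p.1.1.2 p.2 N) := by
  have hs0 : 0 ≤ 7 / (2 * (P : ℝ)) := by positivity
  refine Pool.Agent.Q158.RR.mono (Pool.Agent.Q158.RR.random (fun z : Curves => Exc P z.1.1 z.1.2)
    (fun _ j => (ht j : ℝ)) s (hs0.trans hs) hs1 fun z => Pool.Agent.Q158.RR.weaken hs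
      (fun η hη => InvariantWindows.count P hP z.1.1 z.1.2 z.2 η hη)) id fun p N h => ?_
  intro A B hAB hw q hq hPq hcon
  exact absurd (h (jInvariant A B) ⟨A, B, hAB, rfl, q, hq, hPq, hcon⟩) (not_lt.2 hw)

end Pool.Agent.Results.MP_a60a76_nt.RandomInvariants
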